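import Pool.Agent.Lib.MP_41050a_ag.QM.G

open Pool.Agent.Lib.MP_41050a_ag Pool.Agent.Lib.MP_41050a_ag.NK

/-- Movable bend and break in every degree `e ≥ 2` for all smooth complete intersections of
multidegree `d` in projective `N`-space whose index `N + 1 - ∑ d l` is at least two. -/
theorem Pool.Agent.Results.MP_41050a_ag.HypersurfaceBreak.result (k : Type) [Field k]
    [IsAlgClosed k] [CharZero k] (N c : ℕ) (d : Fin c → ℕ) (f : Fin c → Pk k N)
    (hd : ∀ l, 1 ≤ d l) (hf : ∀ l, (f l).IsHomogeneous (d l))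
    (hs : ∀ x : Fin (N + 1) → k, x ≠ 0 → (∀ l, MvPolynomial.aeval x (f l) = 0) →
      LinearIndependent k fun (l : Fin c) (i : Fin (N + 1)) =>
        MvPolynomial.aeval x (MvPolynomial.pderiv i (f l)))
    (h2 : ∑ l, d l + 1 ≤ N) (e : ℕ) (he : 2 ≤ e)
    (P : Ideal (MvPolynomial (Fin (N + 1) × Fin (e + 1)) k))
    (hP : P ∈ (eqs (Ideal.span (Set.range f)) e).minimalPrimes)
    (hg : GenFree (Ideal.span (Set.range f)) e P) : BreaksN (Ideal.span (Set.range f)) e P :=
  QM.main (QM.dat hf hd (CI.nsc_of hs) h2) (by omega) he hP hg
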