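import Pool.Agent.Lib.MP_41050a_ag.CI.Lin

open MvPolynomial

/-- The scheme of lines on a smooth complete intersection `f 0 = ⋯ = f (c - 1) = 0` of multidegree
`d` in projective `N`-space, in the chart of the Grassmannian given by the columns `a`, `b`: the
line is spanned by the rows `X (0, ·)` and `X (1, ·)`, and the columns `a`, `b` form the identity
matrix. With `D = ∑ d l`, every irreducible component has dimension `s` with
`2 N - 2 - c - D ≤ s ≤ 2 N - 2 - c - min D N`. -/
theorem Pool.Agent.Results.MP_41050a_ag.LinesExpected.result (k : Type) [Field k] [IsAlgClosed k]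
    [CharZero k] (N c : ℕ) (d : Fin c → ℕ) (f : Fin c → MvPolynomial (Fin (N + 1)) k)
    (hd : ∀ l, 1 ≤ d l) (hf : ∀ l, (f l).IsHomogeneous (d l))
    (hs : ∀ x : Fin (N + 1) → k, x ≠ 0 → (∀ l, aeval x (f l) = 0) →
      LinearIndependent k fun (l : Fin c) (i : Fin (N + 1)) => aeval x (pderiv i (f l)))
    (a b : Fin (N + 1)) (P : Ideal (MvPolynomial (Fin 2 × Fin (N + 1)) k))
    (hP : P ∈ (Ideal.span ((Set.range fun j : (l : Fin c) × Fin (d l + 1) => (aeval
      (fun i => Polynomial.C (X (0, i)) + Polynomial.X * Polynomial.C (X (1, i)) :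
        Fin (N + 1) → Polynomial (MvPolynomial (Fin 2 × Fin (N + 1)) k)) (f j.1)).coeff j.2) ∪
      {X (0, a) - 1, X (0, b), X (1, a), X (1, b) - 1})).minimalPrimes) :
    ∃ s : ℕ, ringKrullDim (MvPolynomial (Fin 2 × Fin (N + 1)) k ⧸ P) = s ∧
      2 * N ≤ s + ∑ l, d l + c + 2 ∧ s + min (∑ l, d l) N + c + 2 ≤ 2 * N :=
  Pool.Agent.Lib.MP_41050a_ag.CI.main hf hd (Pool.Agent.Lib.MP_41050a_ag.CI.nsc_of hs) hP
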