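import Pool.Agent.Lib.MP_41050a_ag.NK.Main

open Pool.Agent.Lib.MP_41050a_ag Pool.Agent.Lib.MP_41050a_ag.NK

/-- Movable bend and break in anticanonical degree at least `n + 2`, unless there is a neck. -/
theorem Pool.Agent.Results.MP_41050a_ag.NeckDichotomy.result (k : Type) [Field k] [IsAlgClosed k]
    [CharZero k] (N n : ℕ) (I : Ideal (Pk k N)) (b : ℤ) (hV : SmoothVar I) (hn : Dim I n k)
    (hb : 1 ≤ b)
    (hl : ∀ (e : ℕ) (F : Fin (N + 1) → Polynomial k) (d : ℤ), Curve I n e F d → b ≤ d) (e : ℕ)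
    (P : Ideal (MvPolynomial (Fin (N + 1) × Fin (e + 1)) k)) (hP : P ∈ (eqs I e).minimalPrimes)
    (hg : GenK I n e P (n + 2)) :
    BreaksN I e P ∨ ∃ (ε e' : ℕ) (F : Fin (N + 1) → Polynomial k) (d : ℤ), b ≤ ε ∧ ε + d ≤ n ∧
      Neck I n ε ∧ Curve I n e' F d ∧ Free I e' F :=
  main hV hn hb hl hP hg
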