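import Pool.Agent.Lib.MP_41050a_ag.Final

open Pool.Agent.Lib.MP_41050a_ag

/-- Movable bend and break for smooth projective varieties with a dense orbit of a connected
solvable group. The constant depends only on the dimension of the ambient projective space and on
the degree of the equations. -/
theorem Pool.Agent.Results.MP_41050a_ag.SolvableBreak.result (N d : ℕ) :
    ∃ c : ℕ, ∀ (k : Type) [Field k] [IsAlgClosed k] [CharZero k] (I : Ideal (Pk k N)),
      SmoothVar I → GenDeg I d → ∀ x₀ : Fin (N + 1) → k, DenseOrbit I x₀ →
        ∀ e, c ≤ e → ∀ P ∈ (eqs I e).minimalPrimes, GenFree I e P → Breaks I e P :=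
  main N d
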